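import Mathlib
import Pool.Agent.H27.Minimax

set_option autoImplicit false

namespace Pool.Agent.Results.MP_36f7ac_an.Counter

open Filter Matrix Topology
open scoped ENNReal

abbrev Mt (N : ℕ) := Matrix (Fin N) (Fin N) ℝ

/-- The product `A_n B_n ⋯ A_1 B_1`. -/
def P {N : ℕ} (A B : ℕ → Mt N) : ℕ → Mt N
  | 0 => 1
  | n + 1 => A n * B n * P A B n

noncomputable def mu {N : ℕ} (φ : Mt N → ℝ≥0∞) (𝒜 ℬ : Set (Mt N)) (n : ℕ) : ℝ≥0∞ :=
  (⨆ A : ℕ → 𝒜, ⨅ B : ℕ → ℬ, φ (P (fun i => A i) (fun i => B i) n)) ^ (n : ℝ)⁻¹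

noncomputable def eta {N : ℕ} (φ : Mt N → ℝ≥0∞) (𝒜 ℬ : Set (Mt N)) (n : ℕ) : ℝ≥0∞ :=
  (⨅ B : ℕ → ℬ, ⨆ A : ℕ → 𝒜, φ (P (fun i => A i) (fun i => B i) n)) ^ (n : ℝ)⁻¹

noncomputable def rho {N : ℕ} (X : Mt N) : ℝ≥0∞ := spectralRadius ℂ (X.map (algebraMap ℝ ℂ))

open Pool.Agent.H27.Minimax

def SA : Set Mat := (fun k : ℕ => M 5 k) '' Set.Icc 1 4
def SB : Set Mat := {1, Bs}

lemma rho_nil (X : Mat) (h : X ^ 5 = 0) : rho X = 0 := by
  have h1 : IsNilpotent (X.map (algebraMap ℝ ℂ)) := by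
    have := (show IsNilpotent X from ⟨5, h⟩).map (algebraMap ℝ ℂ).mapMatrix
    exact this
  unfold rho spectralRadius
  refine le_antisymm (iSup₂_le fun k hk => ?_) zero_le
  by_contra hne
  have hk0 : k ≠ 0 := by rintro rfl; simp at hne
  apply hk
  rw [spectrum.mem_resolventSet_iff, sub_eq_add_neg]
  exact h1.neg.isUnit_add_left_of_commute ((isUnit_iff_ne_zero.mpr hk0).map _)
    (Algebra.commutes _ _).symm

noncomputable def B0 : ℕ → SB := fun i => if i = 0 then ⟨Bs, Or.inr rfl⟩ else ⟨1, Or.inl rfl⟩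
noncomputable def A0 : ℕ → SA := fun i => ⟨M 5 (d i), d i, d_bd i, rfl⟩

lemma P_B0 (A : ℕ → SA) (n : ℕ) :
    ∃ s v, P (fun i => (A i : Mat)) (fun i => (B0 i : Mat)) (n + 1) = M s v * Bs := by
  induction n with
  | zero =>
    obtain ⟨k, _, hk⟩ := (A 0).2
    exact ⟨5, k, by simp [P, B0, ← hk]⟩
  | succ n ih =>
    obtain ⟨s, v, h⟩ := ih
    obtain ⟨k, _, hk⟩ := (A (n + 1)).2
    refine ⟨5 * s, 5 * v + k, ?_⟩
    rw [P, h, ← M_mul, ← hk]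
    simp [B0, Matrix.mul_assoc]

lemma eta_rho (n : ℕ) : eta rho SA SB (n + 1) = 0 := by
  unfold eta
  rw [ENNReal.rpow_eq_zero_iff]
  refine Or.inl ⟨le_antisymm ((iInf_le _ B0).trans (iSup_le fun A => ?_)) zero_le, by positivity⟩
  obtain ⟨s, v, h⟩ := P_B0 A n
  rw [h, rho_nil _ (nil s v)]

lemma mu_le_eta (φ : Mat → ℝ≥0∞) (n : ℕ) : mu φ SA SB n ≤ eta φ SA SB n :=
  ENNReal.rpow_le_rpow (iSup_iInf_le_iInf_iSup _) (by positivity)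

lemma inv_P (B : ℕ → SB) (n : ℕ) :
    Inv n (P (fun i => (A0 i : Mat)) (fun i => (B i : Mat)) n *ᵥ ![0, 1, 0, 0, 0]) := by
  induction n with
  | zero => exact ⟨1, one_ne_zero, Or.inl ⟨0, 0, rfl, by simp [P, f]⟩⟩
  | succ n ih =>
    rw [P, ← Matrix.mulVec_mulVec]
    exact inv_step n _ _ (B n).2 ih

lemma mu_ge (ν : Seminorm ℝ Mat) (hν : ∀ X, ν X = 0 → X = 0) :
    1 ≤ liminf (mu (fun X => ENNReal.ofReal (ν X)) SA SB) atTop := by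
  obtain ⟨c, hc, h⟩ := norm_bd ν hν
  have h1 : Tendsto (fun n : ℕ => ENNReal.ofReal (c ^ (n : ℝ)⁻¹)) atTop (𝓝 1) := by
    have h2 : Tendsto (fun n : ℕ => c ^ (n : ℝ)⁻¹) atTop (𝓝 (c ^ (0 : ℝ))) :=
      (Real.continuousAt_const_rpow hc.ne').tendsto.comp tendsto_inv_atTop_nhds_zero_nat
    simpa using ENNReal.tendsto_ofReal h2
  rw [← h1.liminf_eq]
  refine liminf_le_liminf (Eventually.of_forall fun n => ?_)
  rw [← ENNReal.ofReal_rpow_of_pos hc]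
  refine ENNReal.rpow_le_rpow (le_iSup_of_le A0 (le_iInf fun B => ?_)) (by positivity)
  apply ENNReal.ofReal_le_ofReal
  have key : ∀ (X : Mat) (i : Fin 5), (X *ᵥ ![0, 1, 0, 0, 0]) i = X i 1 := by
    intro X i; simp [Matrix.mulVec, dotProduct, Fin.sum_univ_five]
  obtain ⟨z, hz, hh⟩ := inv_P B n
  have hz1 : (1 : ℝ) ≤ |(z : ℝ)| := by exact_mod_cast Int.one_le_abs hz
  rcases hh with ⟨i, l, _, hw⟩ | ⟨i, l, m, _, hw⟩
  · have h3 := congrFun hw 1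
    rw [key] at h3
    refine le_trans ?_ (h _ 1)
    rw [h3]; exact le_mul_of_one_le_right hc.le hz1
  · have h3 := congrFun hw 4
    rw [key] at h3
    refine le_trans ?_ (h _ 4)
    rw [h3]; exact le_mul_of_one_le_right hc.le hz1

theorem result : ∃ (N : ℕ) (𝒜 ℬ : Set (Mt N)), 1 ≤ N ∧ 𝒜.Finite ∧ 𝒜.Nonempty ∧ ℬ.Finite ∧
    ℬ.Nonempty ∧ ∀ ν : Seminorm ℝ (Mt N), (∀ X, ν X = 0 → X = 0) →
      limsup (mu rho 𝒜 ℬ) atTop < liminf (mu (fun X => ENNReal.ofReal (ν X)) 𝒜 ℬ) atTop ∧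
      limsup (eta rho 𝒜 ℬ) atTop < liminf (eta (fun X => ENNReal.ofReal (ν X)) 𝒜 ℬ) atTop ∧
      liminf (mu rho 𝒜 ℬ) atTop < liminf (mu (fun X => ENNReal.ofReal (ν X)) 𝒜 ℬ) atTop ∧
      liminf (eta rho 𝒜 ℬ) atTop < liminf (eta (fun X => ENNReal.ofReal (ν X)) 𝒜 ℬ) atTop := by
  refine ⟨5, SA, SB, by norm_num, (Set.finite_Icc 1 4).image _, ⟨_, (A0 0).2⟩,
    (Set.finite_singleton _).insert _, ⟨1, Or.inl rfl⟩, fun ν hν => ?_⟩
  have h1 := mu_ge ν hν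
  have h2 : 1 ≤ liminf (eta (fun X => ENNReal.ofReal (ν X)) SA SB) atTop :=
    h1.trans (liminf_le_liminf (Eventually.of_forall (mu_le_eta _)))
  have h3 : Tendsto (eta rho SA SB) atTop (𝓝 0) :=
    (tendsto_add_atTop_iff_nat 1).mp (by simp only [eta_rho]; exact tendsto_const_nhds)
  have h4 : Tendsto (mu rho SA SB) atTop (𝓝 0) :=
    tendsto_of_tendsto_of_tendsto_of_le_of_le tendsto_const_nhds h3 (fun _ => zero_le)
      (mu_le_eta _)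
  rw [h3.limsup_eq, h3.liminf_eq, h4.limsup_eq, h4.liminf_eq]
  exact ⟨zero_lt_one.trans_le h1, zero_lt_one.trans_le h2, zero_lt_one.trans_le h1,
    zero_lt_one.trans_le h2⟩

end Pool.Agent.Results.MP_36f7ac_an.Counter
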